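import Pool.Agent.Helper42.SG.GoalsA
import Pool.Agent.Helper42.SG.GoalsT

/-!
# Project SG (MP_a41896_nt), module E: the end of part 1 (section 7 of the paper)

Everything that is needed to deduce Theorem P1 from the goals `AUX NQ BL TAY LAWC LOCE ELAW ELOC EUP EDUP`.
All goals of this file are independent of each other (goals may be hypotheses of other goals as
indicated). Lemmas about sums over places: `Pool/Agent/Helper29/BL/PS.lean` (`PS_add`, `PS_sum`, `PS_sub`,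
`PS_const_mul`, `PS_log`, `PS_log_Mv`, `PS_log_iSup`, `PS_log_cst`, `FS.add`, .., `log_min_Mv`); lemmas about `IsQuad`:
`Pool/Agent/Helper29/BL/QSN.lean` (`IsQuad.nsmul`, `IsQuad.triangle`, `IsQuad.neg`, `IsQuad.zero`).
-/

set_option autoImplicit false

open MvPolynomial

namespace Pool.Agent.Helper92.SGE

open WeierstrassCurve Height Height.AdmissibleAbsValues
open Pool.Agent.Helper29.BL Pool.Agent.Helper92.Ru Pool.Agent.Helper42.SG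

/-- The weights of part 1, `≥` the partial degrees `ddM n n n e` of the norm polynomial: `4^n 3 n q_j` for the
variables `2 j, 2 j + 1`, `j < n`, and `4^n 3 n^2` for the last two variables. -/
def dd (n : ℕ) (e : ℕ → ℕ) (h : ℕ) : ℕ :=
  if h < 2 * n then 4 ^ n * (3 * n * 4 ^ e (h / 2)) else 4 ^ n * (3 * n ^ 2)

/-- CVAL: absolute values of algebraic integers. A place of `archAbsVal` is `x ↦ ‖φ x‖` for a complex
embedding `φ`, and `house x` is the maximum of the `‖φ x‖`; it is not nonarchimedean (`|1 + 1| = 2`), so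
`cst v c = c`. A place of `nonarchAbsVal` is an adic absolute value, `≤ 1` on integers, and `cst v c = 1`. -/
def CVAL : Prop :=
  ∀ (K : Type) [Field K] [NumberField K] (x : K) (A : ℝ), 0 ≤ A → IsIntegral ℤ x →
    NumberField.house x ≤ Real.exp A →
    ∀ v : AbsoluteValue K ℝ, (v ∈ archAbsVal (K := K) ∨ v ∈ nonarchAbsVal (K := K)) →
      v x ≤ cst v (Real.exp A)

/-- HTL: the height of the value `(a, b)` of a law, proportional to `(1, t)` (or to `(0, 1)`).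
If `a ≠ 0`: `log max(|a|, |t a|) = log |a| + log M_v(t)`, `PS_log`, `PS_log_Mv`. If `a = 0`: `b ≠ 0`, `log |b|`,
`PS_log`, and `logHeight₁ 0 = 0`. -/
def HTL : Prop :=
  ∀ (K : Type) [Field K] [NumberField K] (a b t : K), (a ≠ 0 ∨ b ≠ 0) → (a ≠ 0 → b = t * a) →
    (a = 0 → t = 0) →
    FS (fun v => Real.log (max (v a) (v b))) ∧
      PS (fun v => Real.log (max (v a) (v b))) = logHeight₁ t

/-- GLOB: the sum of the logarithms of the local estimate LOCE over all the places of `K`.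
Proof. All factors are positive at every place (`Bt, B' ≥ 1`, `M_v ≥ 1`, `max(|L|, |L'|) > 0`), so for every
place of `K`: `log |δ| ≤ log (cst v (exp A)) + sq log Bt + ∑_h (n log max(|L_h|, |L'_h|) + q_h log M_v(ξ_h))
- ∑_j k0 q_j min(log⁺|ξ_(2j)|, log⁺|ξ_(2j+1)|) + n (log M + log M) + ∑_i α_i (log B' + 2 log M_v(ξ_i))`
(`log_min_Mv`). Sum over the places: `PS (log |δ|) = 0` (`PS_log`), `PS (log cst v (exp A)) ≤ totalWeight * A`,
HTL for `(L h, L' h, hw h)`, `PS_log_Mv`. `C = PS (log Bt) + PS (log B') + totalWeight K`. All functions are `FS`.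
(`PS_mono` of PS.lean wants the inequality for ALL absolute values; only the values at the places enter in
`PS`, `FS`: prove the variant with `v ∈ archAbsVal ∨ v ∈ nonarchAbsVal`, by the same proof.) Assume HTL. -/
def GLOB : Prop :=
  ∀ (K : Type) [Field K] [NumberField K] (n k0 : ℕ) (Bt B' : AbsoluteValue K ℝ → ℝ),
    PlC Bt → PlC B' → ∃ C : ℝ, 0 ≤ C ∧
    ∀ (e : ℕ → ℕ) (ξ L L' hw : ℕ → K) (α : Fin (2 * n + 2) →₀ ℕ) (δ : K) (A : ℝ),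
      δ ≠ 0 → 0 ≤ A →
      (∀ h < 2 * n, (L h ≠ 0 ∨ L' h ≠ 0) ∧ (L h ≠ 0 → L' h = hw h * L h) ∧
        (L h = 0 → hw h = 0)) →
      (∀ v : AbsoluteValue K ℝ, (v ∈ archAbsVal (K := K) ∨ v ∈ nonarchAbsVal (K := K)) →
        v δ ≤ cst v (Real.exp A) * Bt v ^ (sq n e) *
          (∏ h ∈ Finset.range (2 * n), (max (v (L h)) (v (L' h))) ^ n *
            Mv v (ξ h) ^ (4 ^ e (h / 2))) /
          (∏ j ∈ Finset.range n, (min (Mv v (ξ (2 * j))) (Mv v (ξ (2 * j + 1)))) ^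
            (k0 * 4 ^ e j)) *
          (Mv v (ξ (2 * n)) * Mv v (ξ (2 * n + 1))) ^ n *
          ∏ i : Fin (2 * n + 2), (B' v * Mv v (ξ i.val) ^ 2) ^ (α i)) →
      ∑ j ∈ Finset.range n, ((k0 : ℝ) * 4 ^ e j) *
          PS (fun v => min (Real.posLog (v (ξ (2 * j)))) (Real.posLog (v (ξ (2 * j + 1))))) ≤
        C * (sq n e + A) +
          ∑ h ∈ Finset.range (2 * n),
            (n * logHeight₁ (hw h) + (4 : ℝ) ^ e (h / 2) * logHeight₁ (ξ h)) +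
          n * (logHeight₁ (ξ (2 * n)) + logHeight₁ (ξ (2 * n + 1))) +
          ∑ i : Fin (2 * n + 2), (α i : ℝ) * (C + 2 * logHeight₁ (ξ i.val))

/-- NUM: the final numbers (no number theory; `q_j = 4^(e j)`).
Proof. Left side `≥ k0 ε ∑ q_j y_j ≥ 8 n (1 - θ)^2 t ≥ 6.48 n t`. `q_j ≤ 1.21 t / y_j ≤ 1.21 t / K0`, so
`sq n e ≤ 1.21 n t / K0`. `∑_h n hw h = n ∑_j (hw(2j) + hw(2j+1)) ≤ n (n θ^2 t + 2 n c₀) ≤ n t + 2 n^2 c₀`;
`∑_h q_h hx h = ∑_j q_j (hx(2j) + hx(2j+1)) ≤ ∑_j (q_j y_j + 2 c₀ q_j) ≤ 1.21 n t + 2 c₀ sq`;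
`n (hx(2n) + hx(2n+1)) ≤ n t + 2 n c₀`. Last sum: `∑ α_i (C + 2 hx i) = ∑ (α_i / d_i) d_i (C + 2 hx i)
≤ (1 / (4^n 20 n)) max_i d_i (C + 2 hx i)`, `d_i = dd n e i`; for `i < 2n`, `j = i / 2`: `hx i ≤ y_j + 2c₀`,
`d_i (C + 2 hx i) ≤ 4^n 3 n (2 q_j y_j + (C + 4 c₀) q_j) ≤ 4^n 3 n^2 (2.42 t + (C + 4c₀) 1.21 t / K0)`; for
`i = 2n, 2n+1`: `4^n 3 n^2 (2 t + 4 c₀ + C)` likewise (`1 ≤ t / K0`). So the last sum is
`≤ 0.363 n t + n (C + 4c₀) t / K0`. Together the right side is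
`≤ (1 + 1.21 + 1 + 0.363) n t + const t / K0 < 6 n t` if `K0` is large (`const` depends on `n, c₀, C`; replace
every constant `a` by `≤ a t / K0`). -/
def NUM : Prop :=
  ∀ (n k0 : ℕ) (ε c₀ C : ℝ), 1 ≤ n → 0 < ε → 8 ≤ ε * k0 → 0 ≤ c₀ → 0 ≤ C →
    ∃ K0 : ℝ, 1 ≤ K0 ∧
    ∀ (θ t : ℝ) (e : ℕ → ℕ) (y g hx hw : ℕ → ℝ) (α : Fin (2 * n + 2) →₀ ℕ),
      0 ≤ θ → θ ≤ 1 / 10 → n * θ ^ 2 ≤ 1 → K0 ≤ t → (∀ j < n, K0 ≤ y j) →
      (∀ j < n, (1 - θ) ^ 2 * t ≤ 4 ^ e j * y j ∧ 4 ^ e j * y j ≤ (1 + θ) ^ 2 * t) →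
      (∀ j < n, ε * y j ≤ g j) → (∀ h, 0 ≤ hx h) →
      (∀ j < n, hx (2 * j) + hx (2 * j + 1) ≤ y j + 2 * c₀) →
      hx (2 * n) + hx (2 * n + 1) ≤ t + 2 * c₀ →
      (∀ j < n, hw (2 * j) + hw (2 * j + 1) ≤ θ ^ 2 * t + 2 * c₀) →
      wt (fun h : Fin (2 * n + 2) => dd n e h.val) α < 1 / (4 ^ n * (20 * n)) →
      ∑ j ∈ Finset.range n, ((k0 : ℝ) * 4 ^ e j) * g j ≤
        C * sq n e +
          ∑ h ∈ Finset.range (2 * n), (n * hw h + (4 : ℝ) ^ e (h / 2) * hx h) +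
          n * (hx (2 * n) + hx (2 * n + 1)) +
          ∑ i : Fin (2 * n + 2), (α i : ℝ) * (C + 2 * hx i.val) →
      False

/-- QTR: `|2^e x - y| ≤ θ |y|` for the seminorm `|x| = sqrt (H x)`: triangle inequality. -/
def QTR : Prop :=
  ∀ (G : Type) [AddCommGroup G] (H : G → ℝ), IsQuad H → ∀ (e : ℕ) (x y : G) (θ : ℝ),
    0 ≤ θ → θ ≤ 1 → H ((2 ^ e) • x - y) ≤ θ ^ 2 * H y →
    (1 - θ) ^ 2 * H y ≤ 4 ^ e * H x ∧ 4 ^ e * H x ≤ (1 + θ) ^ 2 * H y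

/-- NDG: a point of large height is not `0` and not of order two. `hx 0 = 0 ≤ c₀`. If `ps P = 0`, `P ≠ 0`:
by EUP (first part) `Bf W (xc P) = 0`, and `(Ph W 1 x).2 = Bh W x 1 = Bf W x`, so `2^1 • P = 0` by EDUP;
`4 H P = H (2 • P) = H 0 = 0`, so `hx P ≤ c₀`. Assume EDUP, EUP. -/
def NDG : Prop :=
  ∀ (K : Type) [Field K] [NumberField K] [DecidableEq K] (W : Affine K) [W.IsElliptic]
    (H : W.Point → ℝ) (c₀ : ℝ), CanH W H c₀ → ∀ P : W.Point, c₀ < hx P → P ≠ 0 ∧ ps P ≠ 0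

/-- BLK: the block Roth lemma in the situation of part 1 (`y j = |x_j|^2`, `y n = t = |x_0|^2`).
Proof. `BL (n + 1)` for `K, σ` gives `D, Kc, ω` (`MvPolynomial (Fin (2 * (n + 1)))` is definitionally
`MvPolynomial (Fin (2 * n + 2))`). `d j := dd n e (2 * j)`: `4^n (3 n q_j)` for `j < n`, `4^n (3 n^2)` for `j = n`
(and `dd n e h = d (h / 2)`). The sequence `y` is increasing, `y j ≥ y 0 ≥ K0`. `W := 1`,
`H := (C + 4^n 3 n^2) sq n e` (`sq n e ≥ q_j ≥ 1`): `d j ≤ H`, `log PH Q ≤ H`; `sq n e ≤ (5/4) n t / y 0`, so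
`H ≤ C₂ t / y 0 ≤ C₂ t / K0`, `C₂ = (C + 4^n 3 n^2) (5/4) n`.
RATIOS: `j < j' < n`: `d j' / d j = q_j' / q_j ≤ (5/4)(t / y j') (5/4)(y j / t) ≤ (25/16) / K0 ≤ ω`; `j' = n`:
`n / q_j ≤ n (5/4) y j / t ≤ (5/4) n / K0 ≤ ω`.
HEIGHTS: `d j * y j ≥ 4^n 3 n (4/5) t`, so `d j * logHeight₁ ≥ 4^n 3 n (4/5) ε t > Kc C₂ t / K0 ≥ Kc H`.
If `IndGe`, then `BL` gives `j ≤ n` and `f` with `d j * log PH f ≤ Kc H ≤ Kc C₂ t / y 0`, and
`t ≤ d j * y j * (5/4) / (4^n 3 n)`, so `log PH f ≤ CI * (y j / y 0)`, `CI = Kc C₂ (5/4) / (4^n 3 n)`. -/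
def BLK : Prop :=
  ∀ n : ℕ, 1 ≤ n → BL (n + 1) → ∀ (K : Type) [Field K] [NumberField K] (ε C σ : ℝ),
    0 < ε → 0 ≤ C → 0 < σ → ∃ (D : ℕ) (CI K0 : ℝ), 0 ≤ CI ∧ 1 ≤ K0 ∧
    ∀ (e : ℕ → ℕ) (y : ℕ → ℝ) (ξ : ℕ → K) (Q : MvPolynomial (Fin (2 * n + 2)) K),
      (∀ j < n, 4 / 5 * y n ≤ 4 ^ e j * y j ∧ 4 ^ e j * y j ≤ 5 / 4 * y n) →
      K0 ≤ y 0 → (∀ j < n, K0 * y j ≤ y (j + 1)) →
      (∀ j ≤ n, ε * y j ≤ logHeight₁ (ξ (2 * j)) ∧ ε * y j ≤ logHeight₁ (ξ (2 * j + 1))) →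
      Q ≠ 0 → (∀ h, Q.degreeOf h ≤ dd n e h.val) → Real.log (PH Q) ≤ C * sq n e →
      IndGe (fun h : Fin (2 * n + 2) => dd n e h.val) (fun h => ξ h.val) σ Q →
      ∃ j ≤ n, ∃ f : MvPolynomial (Fin 2) K, Irreducible f ∧ (∀ i, f.degreeOf i ≤ D) ∧
        eval (fun i : Fin 2 => ξ (2 * j + i.val)) f = 0 ∧ Real.log (PH f) ≤ CI * (y j / y 0)

/-- MINA: a coefficient of minimal weight. If some coefficient of `f` of weight `< θ` is not zero then there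
is one of minimal weight (the set of exponents of weight `< θ` is finite: `α_i ≤ θ d_i`). -/
def MINA : Prop :=
  ∀ (K : Type) [Field K] (σ : Type) [Fintype σ] (d : σ → ℕ) (f : MvPowerSeries σ K) (θ : ℝ),
    (∀ i, 1 ≤ d i) → (¬ ∀ α, wt d α < θ → MvPowerSeries.coeff α f = 0) →
    ∃ α, wt d α < θ ∧ MvPowerSeries.coeff α f ≠ 0 ∧
      ∀ β, wt d β < wt d α → MvPowerSeries.coeff β f = 0

end Pool.Agent.Helper92.SGE
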