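import Pool.Agent.Helper92.SGE.P1
import Pool.Agent.Helper76.SGC1.Main
import Pool.Agent.Helper65.SG.All

/-!
# Project SG, part 1: Theorem P1 (unconditional)
-/

set_option autoImplicit false

namespace Pool.Agent.Helper92.SGE

open Pool.Agent.Helper42.SG

/-- **Theorem P1**. -/
theorem th_PONE : PONE := p1 Pool.Agent.Helper76.SGC1.aux Pool.Agent.Helper65.SG.th_NQ

end Pool.Agent.Helper92.SGE
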