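import Pool.Agent.Helper92.SGE.Goals
import Pool.Agent.Helper29.BL.QSN
import Pool.Agent.Helper29.BL.PS

/-!
# Project SG, module E: interface between pairs of points and the arrays of part 1
-/

set_option autoImplicit false

namespace Pool.Agent.Helper92.SGE

open WeierstrassCurve Height Height.AdmissibleAbsValues
open Pool.Agent.Helper29.BL Pool.Agent.Helper92.Ru Pool.Agent.Helper42.SG

noncomputable section

variable {K : Type} [Field K]

/-- the two curves as a sequence -/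
def Wf (W₁ W₂ : Affine K) : ℕ → Affine K := fun i => if i = 0 then W₁ else W₂

/-- alternating choice -/
def alt {A : Type} (f g : ℕ → A) (h : ℕ) : A := if h % 2 = 0 then f (h / 2) else g (h / 2)

lemma alt_even {A : Type} (f g : ℕ → A) (j : ℕ) : alt f g (2 * j) = f j := by
  unfold alt
  rw [Nat.mul_mod_right, if_pos rfl, Nat.mul_div_cancel_left _ two_pos]

lemma alt_odd {A : Type} (f g : ℕ → A) (j : ℕ) : alt f g (2 * j + 1) = g j := by
  unfold alt
  have h1 : (2 * j + 1) % 2 = 1 := by omega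
  have h2 : (2 * j + 1) / 2 = j := by omega
  rw [h1, h2, if_neg one_ne_zero]

/-- parity induction below `2 n` -/
lemma forall_lt_two_mul {n : ℕ} {p : ℕ → Prop} (h0 : ∀ j < n, p (2 * j))
    (h1 : ∀ j < n, p (2 * j + 1)) : ∀ h < 2 * n, p h := by
  intro h hh
  rcases Nat.even_or_odd' h with ⟨j, rfl | rfl⟩
  · exact h0 j (by omega)
  · exact h1 j (by omega)

lemma forall_lt_two_mul' {n : ℕ} {p : ℕ → Prop} (h0 : ∀ j ≤ n, p (2 * j))
    (h1 : ∀ j ≤ n, p (2 * j + 1)) : ∀ h < 2 * n + 2, p h := by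
  intro h hh
  rcases Nat.even_or_odd' h with ⟨j, rfl | rfl⟩
  · exact h0 j (by omega)
  · exact h1 j (by omega)

lemma mapW_self (W : ℕ → Affine K) (i : ℕ) : mapW K W i = W i := by
  unfold mapW
  rw [Algebra.algebraMap_self]
  exact WeierstrassCurve.map_id (W i)

variable {W₁ W₂ : Affine K}

/-- the `x`-coordinates -/
def xi (x : ℕ → W₁.Point × W₂.Point) : ℕ → K := alt (fun j => xc (x j).1) (fun j => xc (x j).2)

/-- the values of `ψ` -/
def psi (x : ℕ → W₁.Point × W₂.Point) : ℕ → K := alt (fun j => ps (x j).1) (fun j => ps (x j).2)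

lemma xi_even (x : ℕ → W₁.Point × W₂.Point) (j : ℕ) : xi x (2 * j) = xc (x j).1 := alt_even _ _ j
lemma xi_odd (x : ℕ → W₁.Point × W₂.Point) (j : ℕ) : xi x (2 * j + 1) = xc (x j).2 := alt_odd _ _ j
lemma psi_even (x : ℕ → W₁.Point × W₂.Point) (j : ℕ) : psi x (2 * j) = ps (x j).1 := alt_even _ _ j
lemma psi_odd (x : ℕ → W₁.Point × W₂.Point) (j : ℕ) : psi x (2 * j + 1) = ps (x j).2 :=
  alt_odd _ _ j

lemma lawV_even (x : ℕ → W₁.Point × W₂.Point) (n : ℕ) (e : ℕ → ℕ) (l : Bool) (j : ℕ) :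
    lawV (mapW K (Wf W₁ W₂)) n e (fun _ => l) (xi x) (psi x) (2 * j) =
      law W₁ (e j) l (xc (x j).1) (xc (x n).1) (ps (x j).1 * ps (x n).1) := by
  unfold lawV
  rw [mapW_self, Nat.mul_mod_right, Nat.mul_div_cancel_left _ two_pos, Nat.add_zero, xi_even,
    psi_even, xi_even, psi_even]
  rfl

lemma lawV_odd (x : ℕ → W₁.Point × W₂.Point) (n : ℕ) (e : ℕ → ℕ) (l : Bool) (j : ℕ) :
    lawV (mapW K (Wf W₁ W₂)) n e (fun _ => l) (xi x) (psi x) (2 * j + 1) =
      law W₂ (e j) l (xc (x j).2) (xc (x n).2) (ps (x j).2 * ps (x n).2) := by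
  unfold lawV
  have h1 : (2 * j + 1) % 2 = 1 := by omega
  have h2 : (2 * j + 1) / 2 = j := by omega
  rw [mapW_self, h1, h2, xi_odd, psi_odd, xi_odd, psi_odd]
  rfl

lemma Wf_elliptic [W₁.IsElliptic] [W₂.IsElliptic] (i : ℕ) : (Wf W₁ W₂ i).IsElliptic := by
  unfold Wf
  split_ifs <;> infer_instance

/-! ## quadratic forms -/

theorem isQuad_prod {G G' : Type} [AddCommGroup G] [AddCommGroup G'] {H₁ : G → ℝ} {H₂ : G' → ℝ}
    (h₁ : IsQuad H₁) (h₂ : IsQuad H₂) : IsQuad (fun z : G × G' => H₁ z.1 + H₂ z.2) := by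
  refine ⟨fun z => add_nonneg (h₁.nonneg _) (h₂.nonneg _), fun x y => ?_⟩
  have e1 := h₁.par x.1 y.1
  have e2 := h₂.par x.2 y.2
  simp only [Prod.fst_add, Prod.snd_add, Prod.fst_sub, Prod.snd_sub]
  linarith

/-- if `H (a - b)` is small compared with `H b` then `a + b ≠ 0` -/
lemma add_ne_zero_of {G : Type} [AddCommGroup G] {H : G → ℝ} (hH : IsQuad H) {a b : G} {r : ℝ}
    (h1 : H (a - b) ≤ r) (h2 : r < 4 * H b) : a + b ≠ 0 := by
  intro h
  have ha : a = -b := eq_neg_of_add_eq_zero_left h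
  have e : a - b = -((2 : ℕ) • b) := by rw [ha, two_nsmul]; abel
  rw [e, hH.neg, hH.nsmul] at h1
  push_cast at h1
  linarith

lemma plC_mul {K : Type} [Field K] [AdmissibleAbsValues K] {B B' : AbsoluteValue K ℝ → ℝ}
    (h : PlC B) (h' : PlC B') : PlC (fun v => B v * B' v) := by
  refine ⟨fun v => one_le_mul_of_one_le_of_one_le (h.one_le v) (h'.one_le v), ?_⟩
  have e : (fun v => Real.log (B v * B' v)) = fun v => Real.log (B v) + Real.log (B' v) := by
    funext v
    exact Real.log_mul (by have := h.one_le v; positivity) (by have := h'.one_le v; positivity)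
  rw [e]
  exact h.fin.add h'.fin

end

end Pool.Agent.Helper92.SGE
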