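import Pool.Agent.Helper92.SGE.PONE
import Pool.Agent.Helper42.SG.GoalsG
import Pool.Agent.Helper12.SGB.All
import Pool.Agent.Helper76.SGA.Main
import Pool.Agent.Helper65.SG.Tay
import Pool.Agent.Helper53.SGT.LAWC
import Pool.Agent.Helper31.SGT.MINC
import Pool.Agent.Helper32.SGM.LOCEG
import Pool.Agent.Helper36.SGM.QIX
import Pool.Agent.Helper70.SGE.GLOB
import Pool.Agent.Helper80.SGE.NUM
import Pool.Agent.Helper87.SGE.BLK
import Pool.Agent.Helper31.SGE.CVAL
import Pool.Agent.Helper13.SGE.QTR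
import Pool.Agent.Helper79.SGE.NDG
import Pool.Agent.Helper39.SGE.HTL
import Pool.Agent.Helper40.SGE.MINA

/-!
# Project SG, module E: Theorem P1 from AUX, NQ (all other ingredients are proved)
-/

set_option autoImplicit false

open MvPolynomial

namespace Pool.Agent.Helper92.SGE

open WeierstrassCurve Height Height.AdmissibleAbsValues
open Pool.Agent.Helper29.BL Pool.Agent.Helper92.Ru Pool.Agent.Helper42.SG

theorem loce_of (hL : LOCEG) : LOCE := by
  intro K _ _ W n k0 B B' B'' hn hB hB' hB''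
  obtain ⟨Bt, hBt, h⟩ := hL K W n n n k0 B B' B'' hn hB hB' hB''
  refine ⟨Bt, hBt, ?_⟩
  intro e c ξ ψ ω X Ψ α δ v s hK hO hs hN h3 hlam
  have hpos : ∀ i : Fin (2 * n + 2), 0 < B' v * Mv v (ξ i.val) ^ 2 := fun i =>
    mul_pos (lt_of_lt_of_le one_pos (hB'.one_le v)) (pow_pos (Mv_pos v _) 2)
  have h1 := h 0 e c ξ ψ ω (Fin (2 * n + 2)) X Ψ α δ v
    (fun i => 1 / (B' v * Mv v (ξ i.val) ^ 2)) s hK.toG hO hs
    (fun i => one_div_pos.mpr (hpos i)) (by simp) hN h3 hlam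
  simpa only [one_div_one_div] using h1

/-- **Theorem P1** from the auxiliary function and the norm polynomial. -/
theorem p1 (hAUX : AUX) (hNQ : NQ) : PONE :=
  pone hAUX hNQ Pool.Agent.Helper36.SGM.t_QIX Pool.Agent.Helper76.SGA.blockRoth
    Pool.Agent.Helper65.SG.t_TAY
    (Pool.Agent.Helper53.SGT.t_LAWC Pool.Agent.Helper12.SGB.th_RPOL Pool.Agent.Helper31.SGT.t_MINC)
    (loce_of (Pool.Agent.Helper32.SGM.t_LOCEG Pool.Agent.Helper65.SG.t_FRPS))
    Pool.Agent.Helper12.SGB.th_ELAW Pool.Agent.Helper12.SGB.th_ELOC Pool.Agent.Helper12.SGB.th_EUP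
    (Pool.Agent.Helper70.SGE.glob Pool.Agent.Helper39.SGE.htl) Pool.Agent.Helper80.SGE.num
    Pool.Agent.Helper87.SGE.blk Pool.Agent.Helper31.SGE.cval Pool.Agent.Helper13.SGE.qtr
    (Pool.Agent.Helper79.SGE.ndg Pool.Agent.Helper12.SGB.th_EDUP Pool.Agent.Helper12.SGB.th_EUP)
    Pool.Agent.Helper40.SGE.mina

end Pool.Agent.Helper92.SGE
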