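import Pool.Agent.Helper42.SG.GoalsP
import Pool.Agent.Helper92.SGE.Pre

/-!
# Project SG, module E: assembly of Theorem P1
-/

set_option autoImplicit false

open MvPolynomial

namespace Pool.Agent.Helper92.SGE

open WeierstrassCurve Height Height.AdmissibleAbsValues
open Pool.Agent.Helper29.BL Pool.Agent.Helper92.Ru Pool.Agent.Helper42.SG

/-- Theorem P1 from its ingredients. -/
theorem pone (hAUX : AUX) (hNQ : NQ) (hQIX : QIX) (hBL : ∀ n, BL n) (hTAY : TAY) (hLAWC : LAWC)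
    (hLOCE : LOCE) (hELAW : ELAW) (hELOC : ELOC) (hEUP : EUP) (hGLOB : GLOB) (hNUM : NUM)
    (hBLK : BLK) (hCVAL : CVAL) (hQTR : QTR) (hNDG : NDG) (hMINA : MINA) : PONE := by
  classical
  intro K _ _ _ W₁ W₂ _ _ H₁ H₂ c₀ ε hH₁ hH₂ hε
  -- parameters
  obtain ⟨k0, hk0⟩ : ∃ k0 : ℕ, 8 ≤ ε * k0 := by
    refine ⟨⌈8 / ε⌉₊, ?_⟩
    have h1 : 8 / ε ≤ (⌈8 / ε⌉₊ : ℝ) := Nat.le_ceil _
    have h2 : ε * (8 / ε) = 8 := by field_simp
    calc (8 : ℝ) = ε * (8 / ε) := h2.symm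
      _ ≤ _ := mul_le_mul_of_nonneg_left h1 hε.le
  obtain ⟨n, hnk⟩ : ∃ n : ℕ, 288 * (k0 + 2) ^ 2 ≤ n := ⟨_, le_rfl⟩
  have hn : 1 ≤ n := by
    have h1 : 1 ≤ (k0 + 2) ^ 2 := Nat.one_le_pow _ _ (by omega)
    omega
  have hn' : (1 : ℝ) ≤ n := by exact_mod_cast hn
  have hc₀ : 0 ≤ c₀ := (abs_nonneg _).trans (hH₁.near 0)
  obtain ⟨CA, B, hB, hCA, hA⟩ := hAUX K (Wf W₁ W₂) n k0 hnk
  obtain ⟨B', hB', hT⟩ := hTAY K (Wf W₁ W₂) n
  obtain ⟨E1, hE1, hL1⟩ := hELOC K W₁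
  obtain ⟨E2, hE2, hL2⟩ := hELOC K W₂
  obtain ⟨Bt, hBt, hLo⟩ := hLOCE K (Wf W₁ W₂) n k0 B B' (fun v => E1 v * E2 v) hn hB hB' (plC_mul hE1 hE2)
  obtain ⟨CG, hCG, hG⟩ := hGLOB K n k0 Bt B' hBt hB'
  obtain ⟨CN, hCN, hN⟩ := hNQ K (Wf W₁ W₂) (fun i => Wf_elliptic i) n n n hn hn hn
  have hσ : (0 : ℝ) < 1 / (4 ^ n * (20 * n)) := by positivity
  obtain ⟨D, CI, K1, hCI, hK1, hBk⟩ := hBLK n hn (hBL (n + 1)) K ε (CN * (1 + CA))
    (1 / (4 ^ n * (20 * n))) hε (by positivity) hσ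
  obtain ⟨K2, hK2, hNu⟩ := hNUM n k0 ε c₀ (CG * (1 + CA)) hn hε hk0 hc₀ (by positivity)
  obtain ⟨θ, hθ0, hθ1, hθ2⟩ : ∃ θ : ℝ, 0 < θ ∧ θ ≤ 1 / (10 * n) ∧ θ ≤ ε :=
    ⟨min (1 / (10 * n)) ε, lt_min (by positivity) hε, min_le_left _ _, min_le_right _ _⟩
  have hθ10 : θ ≤ 1 / 10 := by
    refine hθ1.trans ?_
    rw [div_le_div_iff₀ (by positivity) (by norm_num)]
    linarith
  have hθn : n * θ ^ 2 ≤ 1 := by
    have h1 : θ * (10 * n) ≤ 1 := by
      rw [le_div_iff₀ (by positivity)] at hθ1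
      exact hθ1
    nlinarith
  have hθε : θ ^ 2 ≤ ε / 10 := by nlinarith
  refine ⟨n, D, CI, θ, max (max K1 K2) (2 * c₀ / ε + 1), hθ0, ?_⟩
  intro x e hx0 hxs hxe hgg
  by_contra hlow
  push Not at hlow
  have hK1' := ((le_max_left _ _).trans (le_max_left _ _)).trans hx0
  have hK2' := ((le_max_right K1 _).trans (le_max_left _ _)).trans hx0
  have hK3' := (le_max_right _ _).trans hx0
  set y : ℕ → ℝ := fun j => nrm H₁ H₂ (x j) with hy
  have hyn : ∀ j, 0 ≤ y j := fun j => add_nonneg (hH₁.quad.nonneg _) (hH₂.quad.nonneg _)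
  have hmono : ∀ j < n, y j ≤ y (j + 1) := by
    intro j hj
    have h1 := hxs j hj
    have h2 : (1 : ℝ) ≤ max (max K1 K2) (2 * c₀ / ε + 1) :=
      hK1.trans ((le_max_left _ _).trans (le_max_left _ _))
    have h3 := hyn j
    calc y j = 1 * y j := (one_mul _).symm
      _ ≤ max (max K1 K2) (2 * c₀ / ε + 1) * y j := mul_le_mul_of_nonneg_right h2 h3
      _ ≤ _ := h1
  have hmono' : ∀ j ≤ n, y 0 ≤ y j := by
    intro j
    induction j with
    | zero => intro _; exact le_rfl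
    | succ j ih => intro hj; exact (ih (by omega)).trans (hmono j (by omega))
  have hquad : IsQuad (fun z : W₁.Point × W₂.Point => H₁ z.1 + H₂ z.2) :=
    isQuad_prod hH₁.quad hH₂.quad
  have htri : ∀ j < n, (1 - θ) ^ 2 * y n ≤ 4 ^ e j * y j ∧ 4 ^ e j * y j ≤ (1 + θ) ^ 2 * y n :=
    fun j hj => hQTR _ _ hquad (e j) (x j) (x n) θ hθ0.le (by linarith) (hxe j hj)
  -- heights
  have hh1 : ∀ j ≤ n, ε * y j ≤ hx (x j).1 := fun j hj => (hgg j hj).trans (gg_le_left _)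
  have hh2 : ∀ j ≤ n, ε * y j ≤ hx (x j).2 := fun j hj => (hgg j hj).trans (gg_le_right _)
  have hlarge : ∀ j ≤ n, 2 * c₀ + ε ≤ ε * y j := by
    intro j hj
    have h1 : 2 * c₀ / ε + 1 ≤ y j := hK3'.trans (hmono' j hj)
    have h2 : ε * (2 * c₀ / ε + 1) = 2 * c₀ + ε := by field_simp
    rw [← h2]
    exact mul_le_mul_of_nonneg_left h1 hε.le
  have hP1 : ∀ j ≤ n, (x j).1 ≠ 0 ∧ ps (x j).1 ≠ 0 := fun j hj =>
    hNDG K W₁ H₁ c₀ hH₁ _ (by have := hh1 j hj; have := hlarge j hj; linarith)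
  have hP2 : ∀ j ≤ n, (x j).2 ≠ 0 ∧ ps (x j).2 ≠ 0 := fun j hj =>
    hNDG K W₂ H₂ c₀ hH₂ _ (by have := hh2 j hj; have := hlarge j hj; linarith)
  have hbig : θ ^ 2 * y n < 4 * (ε * y n - c₀) := by
    have h1 := hlarge n le_rfl
    have h2 : θ ^ 2 * y n ≤ ε / 10 * y n := mul_le_mul_of_nonneg_right hθε (hyn n)
    nlinarith
  have hS1 : ∀ j < n, (2 ^ e j) • (x j).1 + (x n).1 ≠ 0 := by
    intro j hj
    refine add_ne_zero_of hH₁.quad (r := θ ^ 2 * y n) ?_ ?_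
    · have h1 := hxe j hj
      have h2 : 0 ≤ H₂ ((2 ^ e j) • (x j).2 - (x n).2) := hH₂.quad.nonneg _
      have h3 : nrm H₁ H₂ ((2 ^ e j) • x j - x n) =
        H₁ ((2 ^ e j) • (x j).1 - (x n).1) + H₂ ((2 ^ e j) • (x j).2 - (x n).2) := rfl
      rw [h3] at h1
      have h4 : θ ^ 2 * nrm H₁ H₂ (x n) = θ ^ 2 * y n := rfl
      linarith
    · have h1 := abs_le.mp (hH₁.near (x n).1)
      have h2 := hh1 n le_rfl
      linarith
  have hS2 : ∀ j < n, (2 ^ e j) • (x j).2 + (x n).2 ≠ 0 := by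
    intro j hj
    refine add_ne_zero_of hH₂.quad (r := θ ^ 2 * y n) ?_ ?_
    · have h1 := hxe j hj
      have h2 : 0 ≤ H₁ ((2 ^ e j) • (x j).1 - (x n).1) := hH₁.quad.nonneg _
      have h3 : nrm H₁ H₂ ((2 ^ e j) • x j - x n) =
        H₁ ((2 ^ e j) • (x j).1 - (x n).1) + H₂ ((2 ^ e j) • (x j).2 - (x n).2) := rfl
      rw [h3] at h1
      have h4 : θ ^ 2 * nrm H₁ H₂ (x n) = θ ^ 2 * y n := rfl
      linarith
    · have h1 := abs_le.mp (hH₂.near (x n).2)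
      have h2 := hh2 n le_rfl
      linarith
  -- the arrays
  obtain ⟨c, hc0, hcI, hcH, hKEY⟩ := hA e
  have hψ : ∀ h < 2 * n + 2, psi x h ^ 2 = Bf (Wf W₁ W₂ (h % 2)) (xi x h) ∧ psi x h ≠ 0 := by
    refine forall_lt_two_mul' ?_ ?_
    · intro j hj
      rw [psi_even, xi_even, Nat.mul_mod_right]
      exact ⟨(hEUP K W₁).1 _ (hP1 j hj).1, (hP1 j hj).2⟩
    · intro j hj
      have h1 : (2 * j + 1) % 2 = 1 := by omega
      rw [psi_odd, xi_odd, h1]
      exact ⟨(hEUP K W₂).1 _ (hP2 j hj).1, (hP2 j hj).2⟩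
  obtain ⟨X, Ψ, hTay, hNPS⟩ := hT (xi x) (psi x) hψ
  set om : ℕ → K := alt (fun j => xc ((2 ^ e j) • (x j).1 + (x n).1))
    (fun j => xc ((2 ^ e j) • (x j).2 + (x n).2)) with hom
  set hw : ℕ → K := alt (fun j => xc ((2 ^ e j) • (x j).1 - (x n).1))
    (fun j => xc ((2 ^ e j) • (x j).2 - (x n).2)) with hhw
  have two0 : (2 : K) ≠ 0 := two_ne_zero
  -- facts about the laws at the points
  have hlaw0 : ∀ h < 2 * n, (lawV (mapW K (Wf W₁ W₂)) n e (fun _ => false) (xi x) (psi x) h).1 ≠ 0 ∨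
      (lawV (mapW K (Wf W₁ W₂)) n e (fun _ => false) (xi x) (psi x) h).2 ≠ 0 := by
    refine forall_lt_two_mul ?_ ?_
    · intro j hj
      rw [lawV_even]
      exact (hELAW K W₁ (x j).1 (x n).1 (e j) two0 (hP1 j hj.le).1 (hP1 n le_rfl).1 (hS1 j hj)).1
    · intro j hj
      rw [lawV_odd]
      exact (hELAW K W₂ (x j).2 (x n).2 (e j) two0 (hP2 j hj.le).1 (hP2 n le_rfl).1 (hS2 j hj)).1
  have hlaw1 : ∀ h < 2 * n, (lawV (mapW K (Wf W₁ W₂)) n e (fun _ => true) (xi x) (psi x) h).1 =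
        om h * (lawV (mapW K (Wf W₁ W₂)) n e (fun _ => false) (xi x) (psi x) h).1 ∧
      (lawV (mapW K (Wf W₁ W₂)) n e (fun _ => true) (xi x) (psi x) h).2 =
        om h * (lawV (mapW K (Wf W₁ W₂)) n e (fun _ => false) (xi x) (psi x) h).2 := by
    refine forall_lt_two_mul ?_ ?_
    · intro j hj
      have h1 := hELAW K W₁ (x j).1 (x n).1 (e j) two0 (hP1 j hj.le).1 (hP1 n le_rfl).1 (hS1 j hj)
      rw [lawV_even, lawV_even, hom, alt_even]
      exact h1.2.2.2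
    · intro j hj
      have h1 := hELAW K W₂ (x j).2 (x n).2 (e j) two0 (hP2 j hj.le).1 (hP2 n le_rfl).1 (hS2 j hj)
      rw [lawV_odd, lawV_odd, hom, alt_odd]
      exact h1.2.2.2
  have hlaw2 : ∀ h < 2 * n, ((lawV (mapW K (Wf W₁ W₂)) n e (fun _ => false) (xi x) (psi x) h).1 ≠ 0 →
      (lawV (mapW K (Wf W₁ W₂)) n e (fun _ => false) (xi x) (psi x) h).2 =
        hw h * (lawV (mapW K (Wf W₁ W₂)) n e (fun _ => false) (xi x) (psi x) h).1) ∧
      ((lawV (mapW K (Wf W₁ W₂)) n e (fun _ => false) (xi x) (psi x) h).1 = 0 → hw h = 0) := by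
    refine forall_lt_two_mul ?_ ?_
    · intro j hj
      have h1 := hELAW K W₁ (x j).1 (x n).1 (e j) two0 (hP1 j hj.le).1 (hP1 n le_rfl).1 (hS1 j hj)
      rw [lawV_even, hhw, alt_even]
      by_cases h0 : (2 ^ e j) • (x j).1 - (x n).1 = 0
      · refine ⟨fun h => absurd (h1.2.2.1 h0) h, fun _ => ?_⟩
        show xc ((2 ^ e j) • (x j).1 - (x n).1) = 0
        rw [h0]; rfl
      · exact ⟨fun _ => (h1.2.1 h0).2, fun h => absurd h (h1.2.1 h0).1⟩
    · intro j hj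
      have h1 := hELAW K W₂ (x j).2 (x n).2 (e j) two0 (hP2 j hj.le).1 (hP2 n le_rfl).1 (hS2 j hj)
      rw [lawV_odd, hhw, alt_odd]
      by_cases h0 : (2 ^ e j) • (x j).2 - (x n).2 = 0
      · refine ⟨fun h => absurd (h1.2.2.1 h0) h, fun _ => ?_⟩
        show xc ((2 ^ e j) • (x j).2 - (x n).2) = 0
        rw [h0]; rfl
      · exact ⟨fun _ => (h1.2.1 h0).2, fun h => absurd h (h1.2.1 h0).1⟩
  -- the norm polynomial
  have hsq : (0 : ℝ) ≤ CA * sq n e := by positivity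
  obtain ⟨Q, hQ0, hQd, hQh, -, hQf⟩ := hN e c (CA * sq n e) hc0 hsq hcI hcH
  obtain ⟨g, hg⟩ := hQf _ X Ψ hTay.onW
  set F : MvPowerSeries (Fin (2 * n + 2)) K := Paux (mapW _ (Wf W₁ W₂)) n n n e
      (fun α => algebraMap K (MvPowerSeries (Fin (2 * n + 2)) K) (c α)) (fun _ => false) X Ψ with hF
  have hdd1 : ∀ i : Fin (2 * n + 2), 1 ≤ dd n e i.val := by
    intro i
    unfold dd
    split_ifs
    · exact Nat.one_le_iff_ne_zero.mpr (by positivity)
    · exact Nat.one_le_iff_ne_zero.mpr (by positivity)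
  have hddM : ∀ i : Fin (2 * n + 2), ddM n n n e i.val ≤ dd n e i.val := by
    intro i
    unfold dd ddM
    split_ifs
    · exact Nat.mul_le_mul_left _ (Nat.mul_le_mul_right _ (by omega))
    · exact Nat.mul_le_mul_left _ (by nlinarith)
  have hidx : ¬ IndGe (fun h : Fin (2 * n + 2) => dd n e h.val) (fun h => xi x h.val)
      (1 / (4 ^ n * (20 * n))) Q := by
    intro hI
    have b1 : ∀ j < n, 4 / 5 * y n ≤ 4 ^ e j * y j ∧ 4 ^ e j * y j ≤ 5 / 4 * y n := by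
      intro j hj
      have h2 : 4 / 5 ≤ (1 - θ) ^ 2 := by nlinarith
      have h3 : (1 + θ) ^ 2 ≤ 5 / 4 := by nlinarith
      exact ⟨(mul_le_mul_of_nonneg_right h2 (hyn n)).trans (htri j hj).1,
        (htri j hj).2.trans (mul_le_mul_of_nonneg_right h3 (hyn n))⟩
    have b2 : ∀ j < n, K1 * y j ≤ y (j + 1) := fun j hj =>
      le_trans (mul_le_mul_of_nonneg_right ((le_max_left _ _).trans (le_max_left _ _)) (hyn j))
        (hxs j hj)
    have b3 : ∀ j ≤ n, ε * y j ≤ logHeight₁ (xi x (2 * j)) ∧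
        ε * y j ≤ logHeight₁ (xi x (2 * j + 1)) := by
      intro j hj
      rw [xi_even, xi_odd]
      exact ⟨hh1 j hj, hh2 j hj⟩
    have b4 : Real.log (PH Q) ≤ CN * (1 + CA) * sq n e := by
      refine hQh.trans (le_of_eq ?_)
      ring
    obtain ⟨j, hj, f, hf, hfd, hf0, hfh⟩ := hBk e y (xi x) Q b1 hK1' b2 b3 hQ0
      (fun h => (hQd h).trans (hddM h)) b4 hI
    refine hlow j hj ⟨f, hf, hfd, ?_, hfh⟩
    have : (fun i : Fin 2 => xi x (2 * j + i.val)) =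
        fun i : Fin 2 => if i = 0 then xc (x j).1 else xc (x j).2 := by
      funext i
      fin_cases i
      · simpa using xi_even x j
      · simpa using xi_odd x j
    rw [this] at hf0
    exact hf0
  have hne : ¬ ∀ α, wt (fun h : Fin (2 * n + 2) => dd n e h.val) α < 1 / (4 ^ n * (20 * n)) →
      MvPowerSeries.coeff α F = 0 := fun h =>
    hidx (hQIX K (Wf W₁ W₂) n (xi x) (psi x) X Ψ Q F g _ _ hTay (fun h hh => (hψ h hh).2) hdd1 hg h)
  obtain ⟨α, hα, hδ, hmin⟩ := hMINA K _ _ F _ hdd1 hne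
  have hlc := fun lam => hLAWC K (Wf W₁ W₂) n e c (xi x) (psi x) om X Ψ
    (fun h : Fin (2 * n + 2) => dd n e h.val) α lam hTay hdd1 hlaw0 hlaw1 hmin
  have hE : ∀ v : AbsoluteValue K ℝ, ∀ h < 2 * n,
      Mv v (xi x h) ^ (2 * 4 ^ e (h / 2)) * Mv v (xi x (2 * n + h % 2)) ^ 2 ≤
        (E1 v * E2 v) ^ (4 ^ e (h / 2)) *
          max (v (lawV (mapW K (Wf W₁ W₂)) n e (fun _ => false) (xi x) (psi x) h).1)
          (v (lawV (mapW K (Wf W₁ W₂)) n e (fun _ => false) (xi x) (psi x) h).2) *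
          Mv v (om h) := by
    intro v
    have h1E := hE1.one_le v
    have h2E := hE2.one_le v
    refine forall_lt_two_mul ?_ ?_
    · intro j hj
      rw [lawV_even, hom, alt_even, xi_even, Nat.mul_mod_right, Nat.mul_div_cancel_left _ two_pos,
        Nat.add_zero, xi_even]
      refine (hL1 v (x j).1 (x n).1 (e j) (hP1 j hj.le).1 (hP1 n le_rfl).1 (hS1 j hj)).trans ?_
      refine mul_le_mul_of_nonneg_right (mul_le_mul_of_nonneg_right ?_ ?_) (Mv_pos _ _).le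
      · exact pow_le_pow_left₀ (by linarith) (by nlinarith) _
      · exact le_max_of_le_left (v.nonneg _)
    · intro j hj
      have h1 : (2 * j + 1) % 2 = 1 := by omega
      have h2 : (2 * j + 1) / 2 = j := by omega
      rw [lawV_odd, hom, alt_odd, xi_odd, h1, h2, xi_odd]
      refine (hL2 v (x j).2 (x n).2 (e j) (hP2 j hj.le).1 (hP2 n le_rfl).1 (hS2 j hj)).trans ?_
      refine mul_le_mul_of_nonneg_right (mul_le_mul_of_nonneg_right ?_ ?_) (Mv_pos _ _).le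
      · exact pow_le_pow_left₀ (by linarith) (by nlinarith) _
      · exact le_max_of_le_left (v.nonneg _)
  have hloc := fun (v : AbsoluteValue K ℝ) (hv : v ∈ archAbsVal (K := K) ∨ v ∈ nonarchAbsVal (K := K)) =>
    hLo e c (xi x) (psi x) om X Ψ α (MvPowerSeries.coeff α F) v (cst v (Real.exp (CA * sq n e)))
      hKEY hTay.onW (fun α => hCVAL K (c α) _ hsq (hcI α) (hcH α) v hv)
      (fun h hh => hNPS v ⟨h, hh⟩) (hE v) hlc
  have hglob := hG e (xi x) (fun h => (lawV (mapW K (Wf W₁ W₂)) n e (fun _ => false) (xi x) (psi x) h).1)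
    (fun h => (lawV (mapW K (Wf W₁ W₂)) n e (fun _ => false) (xi x) (psi x) h).2) hw α
    (MvPowerSeries.coeff α F) (CA * sq n e) hδ hsq
    (fun h hh => ⟨hlaw0 h hh, hlaw2 h hh⟩) hloc
  -- numbers
  have hnear1 : ∀ P : W₁.Point, logHeight₁ (xc P) ≤ H₁ P + c₀ := fun P => by
    have := abs_le.mp (hH₁.near P)
    have h2 : hx P = logHeight₁ (xc P) := rfl
    linarith
  have hnear2 : ∀ P : W₂.Point, logHeight₁ (xc P) ≤ H₂ P + c₀ := fun P => by
    have := abs_le.mp (hH₂.near P)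
    have h2 : hx P = logHeight₁ (xc P) := rfl
    linarith
  have hpair : ∀ j, logHeight₁ (xi x (2 * j)) + logHeight₁ (xi x (2 * j + 1)) ≤ y j + 2 * c₀ := by
    intro j
    rw [xi_even, xi_odd]
    have h1 := hnear1 (x j).1
    have h2 := hnear2 (x j).2
    have h3 : y j = H₁ (x j).1 + H₂ (x j).2 := rfl
    linarith
  refine hNu θ (y n) e y (fun j => gg (x j)) (fun h => logHeight₁ (xi x h))
    (fun h => logHeight₁ (hw h)) α hθ0.le hθ10 hθn (hK2'.trans (hmono' n le_rfl))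
    (fun j hj => hK2'.trans (hmono' j hj.le)) htri (fun j hj => hgg j hj.le)
    (fun h => zero_le_logHeight₁ _) (fun j _ => hpair j) (hpair n) ?_ hα ?_
  · intro j hj
    show logHeight₁ (hw (2 * j)) + logHeight₁ (hw (2 * j + 1)) ≤ _
    rw [hhw, alt_even, alt_odd]
    have h1 := hnear1 ((2 ^ e j) • (x j).1 - (x n).1)
    have h2 := hnear2 ((2 ^ e j) • (x j).2 - (x n).2)
    have h3 := hxe j hj
    have h4 : nrm H₁ H₂ ((2 ^ e j) • x j - x n) =
      H₁ ((2 ^ e j) • (x j).1 - (x n).1) + H₂ ((2 ^ e j) • (x j).2 - (x n).2) := rfl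
    have h5 : nrm H₁ H₂ (x n) = y n := rfl
    rw [h4, h5] at h3
    linarith
  · have h1 : ∀ j, PS (fun v => min (Real.posLog (v (xi x (2 * j))))
        (Real.posLog (v (xi x (2 * j + 1))))) = gg (x j) := by
      intro j
      rw [xi_even, xi_odd]
      rfl
    simp only [h1] at hglob
    refine hglob.trans ?_
    have h2 : CG * (sq n e + CA * sq n e) = CG * (1 + CA) * sq n e := by ring
    have h3 : ∑ i : Fin (2 * n + 2), (α i : ℝ) * (CG + 2 * logHeight₁ (xi x i.val)) ≤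
        ∑ i : Fin (2 * n + 2), (α i : ℝ) * (CG * (1 + CA) + 2 * logHeight₁ (xi x i.val)) := by
      refine Finset.sum_le_sum fun i _ => mul_le_mul_of_nonneg_left ?_ (Nat.cast_nonneg _)
      nlinarith
    rw [h2]
    linarith

end Pool.Agent.Helper92.SGE
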